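import Mathlib
import Pool.Agent.W931.LC.Props

set_option autoImplicit false

/-!
# LC-REG12: the regular cardinals which stay regular
-/

namespace Pool.Agent.W160.LC

open Cardinal Pool.Agent.Helper669.Forcing Pool.Agent.Helper669.K Pool.Agent.W931.LC
open Pool.Agent.W931.KH (SeqClosed)
open Pool.Agent.Helper669.GBase (Compat)

open Classical in
/-- The coordinates in `S` of `b` and the other coordinates of `q`. -/
noncomputable def mx (Q : Par) (S : Set I) (b q : Q.Cd) : Q.Cd := fun i => if i ∈ S then b i else q i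

theorem mx_pos {Q : Par} {S : Set I} (b q : Q.Cd) {i : I} (h : i ∈ S) : mx Q S b q i = b i :=
  if_pos h

theorem mx_neg {Q : Par} {S : Set I} (b q : Q.Cd) {i : I} (h : i ∉ S) : mx Q S b q i = q i :=
  if_neg h

theorem le_mx {Q : Par} {S : Set I} {b q : Q.Cd} (h : b ≤ q) : b ≤ mx Q S b q := by
  intro i
  by_cases hi : i ∈ S
  · rw [mx_pos b q hi]
  · rw [mx_neg b q hi]
    exact h i

theorem mx_le {Q : Par} {S : Set I} {b q q' : Q.Cd} (h : b ≤ q') (h' : q ≤ q') :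
    mx Q S b q ≤ q' := by
  intro i
  by_cases hi : i ∈ S
  · rw [mx_pos b q hi]
    exact h i
  · rw [mx_neg b q hi]
    exact h' i

/-- The general argument: names of functions are decided by the coordinates in `S`, up to
antichains of size less than `ρ`. -/
theorem gen (Q : Par) (S : Set I) {ρ : Cardinal.{0}} (hρ : ρ.IsRegular)
    (hcard : ∀ A : Set (∀ i : S, Co (Q.mu i) (Q.ka i)),
      (∀ a ∈ A, ∀ b ∈ A, Compat a b → a = b) → #A < ρ)
    (hdec : ∀ (L : Type), #L < ρ → ∀ D : L → Set Q.Cd, (∀ x, Down (D x)) →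
      (∀ x, ∀ p, ∃ q ≤ p, q ∈ D x) → ∀ p : Q.Cd, ∃ q ≤ p, ∀ x, ∀ b : Q.Cd, ∃ b' ≤ b,
        mx Q S b' q ∈ D x) (p : Q.Cd) : p ∈ StaysRegular Q.Cd ρ := by
  classical
  intro ν hν R
  rw [mem_fimp]
  intro q0 _ hR
  obtain ⟨q, hq, hqD⟩ := hdec ν.out (by rw [Cardinal.mk_out]; exact hν)
    (fun x => {r | (∃ y, r ∈ meets (R x y)) ∨ (∀ t ≤ r, ¬ t ≤ q0)})
    (by
      intro x r hr r' hr'
      rcases hr with ⟨y, hy⟩ | h
      · exact Or.inl ⟨y, down_meets _ _ hy _ hr'⟩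
      · exact Or.inr fun t ht => h t (ht.trans hr'))
    (by
      intro x r
      by_cases h1 : ∃ t ≤ r, t ≤ q0
      · obtain ⟨t, htr, htq⟩ := h1
        obtain ⟨t2, ht2, y, hy⟩ := IsFun.total (down_IsFun R _ hR t htq) x
        exact ⟨t2, ht2.trans htr, Or.inl ⟨y, hy⟩⟩
      · exact ⟨r, le_rfl, Or.inr fun t ht htq => h1 ⟨t, ht, htq⟩⟩) q0
  have hRq : q ∈ IsFun R := down_IsFun R _ hR _ hq
  have hV : ∀ x : ν.out, #{y : ρ.ord.ToType | ∃ q1 ≤ q, q1 ∈ meets (R x y)} < ρ := by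
    intro x
    have h1 : ∀ y : {y : ρ.ord.ToType | ∃ q1 ≤ q, q1 ∈ meets (R x y)},
        ∃ b : Q.Cd, b ≤ q ∧ mx Q S b q ∈ meets (R x y.1) := by
      rintro ⟨y, q1, hq1, hm⟩
      obtain ⟨b, hb, hbD⟩ := hqD x q1
      have hbq : b ≤ q := hb.trans hq1
      refine ⟨b, hbq, ?_⟩
      rcases hbD with ⟨y', hy'⟩ | hn
      · have e : y = y' := IsFun.unique (down_IsFun R _ hRq _ hbq) (down_meets _ _ hm _ hb)
          (down_meets _ _ hy' _ (le_mx hbq))
        subst e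
        exact hy'
      · exact absurd ((mx_le hbq le_rfl).trans hq) (hn _ le_rfl)
    choose b hb hbm using h1
    obtain ⟨a, ha⟩ : ∃ a : {y : ρ.ord.ToType | ∃ q1 ≤ q, q1 ∈ meets (R x y)} →
        (∀ i : S, Co (Q.mu i) (Q.ka i)), ∀ y i, a y i = b y i := ⟨fun y i => b y i, fun _ _ => rfl⟩
    have key : ∀ y y', Compat (a y) (a y') → y = y' := by
      rintro y y' ⟨c, hc, hc'⟩
      obtain ⟨r, hr1, hr2⟩ : ∃ r : Q.Cd, (∀ (i : I) (h : i ∈ S), r i = c ⟨i, h⟩) ∧
          ∀ i, i ∉ S → r i = q i :=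
        ⟨fun i => if h : i ∈ S then c ⟨i, h⟩ else q i, fun i h => dif_pos h, fun i h => dif_neg h⟩
      have hr : ∀ z, c ≤ a z → r ≤ mx Q S (b z) q := by
        intro z hz i
        by_cases h : i ∈ S
        · rw [hr1 i h, mx_pos _ _ h, ← ha z ⟨i, h⟩]
          exact hz ⟨i, h⟩
        · rw [hr2 i h, mx_neg _ _ h]
      have hrq : r ≤ q := (hr y hc).trans (mx_le (hb y) le_rfl)
      exact Subtype.ext (IsFun.unique (down_IsFun R _ hRq _ hrq)
        (down_meets _ _ (hbm y) _ (hr y hc)) (down_meets _ _ (hbm y') _ (hr y' hc')))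
    have hinj : Function.Injective a := fun y y' h => key y y' ⟨a y, le_rfl, h ▸ le_rfl⟩
    have h2 := hcard (Set.range a) (by
      rintro _ ⟨y, rfl⟩ _ ⟨y', rfl⟩ h
      rw [key y y' h])
    rwa [Cardinal.mk_range_eq a hinj] at h2
  have hS : #(⋃ x : ν.out, {y : ρ.ord.ToType | ∃ q1 ≤ q, q1 ∈ meets (R x y)} : Set _) < ρ := by
    rw [Cardinal.card_iUnion_lt_iff_forall_of_isRegular hρ (by rw [Cardinal.mk_out]; exact hν)]
    exact hV
  obtain ⟨b, hb⟩ := bdd_ord hρ _ hS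
  refine ⟨q, hq, mem_fex_of_mem b ?_ ?_⟩
  · exact down_fall fun x => down_fall fun y => down_fimp _ _
  · intro x y
    rw [mem_fimp]
    intro q1 hq1 hm
    exact ⟨q1, le_rfl, hb y (Set.mem_iUnion.2 ⟨x, q1, hq1, hm⟩)⟩

theorem mix_eq (Q : Par) (j : I) (b q : Q.Cd) : Q.mix j b q = mx Q (Set.Iic j) b q := by
  funext i
  by_cases h : i ≤ j
  · rw [mx_pos b q (S := Set.Iic j) h]
    exact if_pos h
  · rw [mx_neg b q (S := Set.Iic j) h]
    exact if_neg h

theorem mix'_eq (Q : Par) (j : I) (b q : Q.Cd) : Q.mix' j b q = mx Q (Set.Iio j) b q := by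
  funext i
  by_cases h : i < j
  · rw [mx_pos b q (S := Set.Iio j) h]
    exact if_pos h
  · rw [mx_neg b q (S := Set.Iio j) h]
    exact if_neg h

theorem tREG1 (h1 : S_FUS) (h2 : S_CC) : S_REG1 := by
  intro Q j p
  refine gen Q (Set.Iic j) (Q.reg j) (h2 Q j) ?_ p
  intro L hL D hD hdense p
  obtain ⟨q, hq, h⟩ := h1 Q (fun i => {_x : L // i = j}) (by
    intro i
    by_cases hij : i = j
    · subst hij
      exact (Cardinal.mk_subtype_le _).trans hL.le
    · have hE : IsEmpty {_x : L // i = j} := ⟨fun z => hij z.2⟩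
      rw [Cardinal.mk_eq_zero]
      exact zero_le) (fun _ x => D x.1) (fun _ x => hD x.1) (fun _ x => hdense x.1) p
  refine ⟨q, hq, fun x b => ?_⟩
  obtain ⟨b', hb', hm⟩ := h j ⟨x, rfl⟩ b
  refine ⟨b', hb', ?_⟩
  rw [← mix_eq]
  exact hm

theorem tREG2 (h1 : S_DEC2) (h2 : S_CARD2) : S_REG2 := by
  intro hG Q j ρ hρ hlt hle p
  refine gen Q (Set.Iio j) hρ ?_ ?_ p
  · intro A _
    exact ((Cardinal.mk_set_le A).trans (h2 hG Q j)).trans_lt hlt
  · intro L hL D hD hdense p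
    obtain ⟨q, hq, h⟩ := h1 hG Q j L (hL.trans_le hle) D hD hdense p
    refine ⟨q, hq, fun x b => ?_⟩
    obtain ⟨b', hb', hm⟩ := h x b
    refine ⟨b', hb', ?_⟩
    rw [← mix'_eq]
    exact hm

theorem tREG5 (h : S_CARD3) : S_REG5 := by
  intro hG Q ρ hρ hlt p
  refine staysRegular_of_cc' hρ ?_ p
  intro ι f hι
  by_contra hcon
  push Not at hcon
  have hinj : Function.Injective f := by
    intro i i' hii
    by_contra hne
    exact hcon i i' hne (f i) le_rfl (hii ▸ le_rfl)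
  have h2 := Cardinal.mk_le_of_injective hinj
  exact absurd (hι.trans (h2.trans (h hG Q))) (not_le.2 hlt)

theorem tREG6 : S_REG6 := by
  intro Q ρ hρ hle p
  have hI : Nonempty I := by
    rw [← Cardinal.mk_ne_zero_iff, Cardinal.mk_ord_toType]
    exact (aleph0_pos.trans_le (aleph0_le_aleph 1)).ne'
  have hne : (Set.univ : Set I).Nonempty := Set.univ_nonempty
  obtain ⟨j0, -, hj0⟩ := WellFounded.has_min (wellFounded_lt (α := I)) Set.univ hne
  have hj0' : ∀ j, j0 ≤ j := fun j => not_lt.1 (hj0 j (Set.mem_univ j))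
  refine gen Q ∅ hρ ?_ ?_ p
  · intro A _
    have hsub : Subsingleton (∀ i : (∅ : Set I), Co (Q.mu i) (Q.ka i)) :=
      ⟨fun a b => funext fun i => i.2.elim⟩
    have h1 : #A ≤ 1 := by
      rw [Cardinal.le_one_iff_subsingleton]
      exact ⟨fun a b => Subtype.ext (Subsingleton.elim _ _)⟩
    exact h1.trans_lt (Cardinal.one_lt_aleph0.trans_le hρ.aleph0_le)
  · intro L hL D hD hdense p
    obtain ⟨q, hq, h⟩ := (Q.seqClosed_Cd j0 hj0').exists_forall_mem (hL.trans_le (hle j0)) D hD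
      (fun x q => hdense x q) p
    refine ⟨q, hq, fun x b => ⟨b, le_rfl, ?_⟩⟩
    have e : mx Q ∅ b q = q := by
      funext i
      exact mx_neg b q (Set.notMem_empty i)
    rw [e]
    exact h x

end Pool.Agent.W160.LC
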